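import Pool.Agent.L0h5.TT.G4
import Pool.Agent.L0h94.FT.Loc3

/-!
# The average over the window
-/

set_option autoImplicit false

namespace Pool.Agent.L0h5.TT

open Finset Pool.Agent.W262.RK Pool.Agent.L0h5.TF Pool.Agent.L0h5.AG Pool.Agent.L0h94.FT

lemma Lki_self {k : ℕ} (i : Ik k) : Lki lbk i i = false := by
  unfold Lki Ll
  rw [decide_eq_false_iff_not, Nat.not_odd_iff_even]
  exact (lbk i).2

/-- **F** the average over the window -/
theorem avgF (hAG : S_AGF) (hCMB : S_CMB) (hEXP : S_EXP) : S_AVG := by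
  classical
  intro k hk
  obtain ⟨δ0, hδ0, hδ2, hC⟩ := hCMB k hk
  have hk1 : (0 : ℝ) < (1 / 2 : ℝ) ^ k := by positivity
  have hk2 : (1 / 2 : ℝ) ^ k ≤ 1 / 2 := by
    calc (1 / 2 : ℝ) ^ k ≤ (1 / 2 : ℝ) ^ 1 :=
          pow_le_pow_of_le_one (by norm_num) (by norm_num) hk
      _ = 1 / 2 := pow_one _
  obtain ⟨z0, hz0⟩ := hAG (Ik k) ty (fun _ => (1 / 2 : ℝ) ^ k) (Lki lbk) 3 3 δ0
    (fun _ => hk1) Lki_self (by norm_num) hδ0 (by linarith) (fun U hU => hC δ0 hδ0 le_rfl U hU)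
  refine ⟨δ0, hδ0, hδ2, z0 + 8, by omega, fun z hz => ?_⟩
  obtain ⟨Cm, hCm⟩ := mert z (by omega)
  have hp3 : ∀ p : ℕ, z < p → (0 : ℝ) < (p : ℝ) - 3 := by
    intro p hp
    have : (4 : ℝ) ≤ p := by exact_mod_cast (by omega : 4 ≤ p)
    linarith
  obtain ⟨C, hC'⟩ := hz0 z (by omega) (wi (fun _ : Ik k => (1 / 2 : ℝ) ^ k) 3)
    ((1 / 2) ^ k * Cm)
    (fun i p hp hpz => by
      unfold wi
      have h := hp3 p hpz
      push_cast
      rw [abs_div, abs_of_pos h, abs_of_pos hk1]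
      exact div_le_div_of_nonneg_right hk2 h.le)
    (fun i y hy => by
      have h1 : ∀ p ∈ PS z y, |wi (fun _ : Ik k => (1 / 2 : ℝ) ^ k) 3 i p| =
          (1 / 2) ^ k * ((1 : ℝ) / ((p : ℝ) - 3)) := by
        intro p hp
        have h := hp3 p (mem_PS.1 hp).1.1
        unfold wi
        push_cast
        rw [abs_div, abs_of_pos h, abs_of_pos hk1]
        ring
      rw [sum_congr rfl h1, ← mul_sum]
      have h2 := mul_le_mul_of_nonneg_left (hCm y hy) hk1.le
      linarith)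
  refine ⟨|C|, abs_nonneg _, fun y hy => ?_⟩
  set F : (Fin 3 → ℕ) → ℝ := fun n => if Win δ0 (LL y) n then 1 else 0 with hF
  have h1 := hC' y hy F (fun n => by rw [hF]; simp only; split_ifs <;> simp)
    (fun n hn => by
      by_contra hcon
      rw [hF] at hn
      simp only [if_neg hcon] at hn
      exact hn rfl)
  rw [← hEXP k z y F] at h1
  have h2 : ∑ s ∈ (Tup (Fin 3) z y).filter (fun s => Win δ0 (LL y) (om3 s)),
      G3 k s * ∏ j, gw 1 3 (s j) =
      ∑ s ∈ Tup (Fin 3) z y, F (om3 s) * (G3 k s * ∏ j, gw 1 3 (s j)) := by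
    rw [sum_filter]
    refine sum_congr rfl fun s _ => ?_
    rw [hF]
    simp only
    split_ifs <;> simp
  rw [h2]
  have h3 : 0 ≤ (Real.log y) ^ 3 := pow_nonneg (Real.log_natCast_nonneg y) 3
  have h4 : (Real.log (y : ℝ)) ^ (3 : ℝ) = (Real.log y) ^ 3 := by
    rw [← Real.rpow_natCast]
    norm_num
  rw [h4] at h1
  exact (le_abs_self _).trans (h1.trans (mul_le_mul_of_nonneg_right (le_abs_self C) h3))

end Pool.Agent.L0h5.TT
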