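import Pool.Agent.L0h5.TT.Fib
import Pool.Agent.L0h94.FT.Core2

/-!
# The core estimate
-/

set_option autoImplicit false

namespace Pool.Agent.L0h5.TT

open Finset Pool.Agent.W262.RK Pool.Agent.L0h5.TF Pool.Agent.L0h94.FT
open Pool.Agent.W307.RT (S1 S2 Gd fv)

lemma lamc_nonneg (k : ℕ) (c : Fin 3) (v h : Vk k) : 0 ≤ lamc k c v h := by
  unfold lamc
  exact sum_nonneg fun e _ => mul_nonneg (by norm_num) (prod_nonneg fun i _ => iL_nonneg _ _ _)

lemma G3_nonneg (k : ℕ) (s : Fin 3 → ℕ) : 0 ≤ G3 k s := by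
  unfold G3
  rw [Gs_def]
  exact sum_nonneg fun D _ => prod_nonneg fun p _ => lamc_nonneg _ _ _ _

open Classical in
/-- the weight of a factorisation -/
noncomputable def Wt (M : ℕ) (δ : ℝ) (X : ℕ) (τ : Fin 3 → ℕ) : ℝ :=
  (if Win δ (LL X) (om3 τ) then 1 else 0) + ((Real.log X) ^ M)⁻¹

lemma Wt_nonneg (M : ℕ) (δ : ℝ) (X : ℕ) (τ : Fin 3 → ℕ) : 0 ≤ Wt M δ X τ := by
  unfold Wt
  have h1 : 0 ≤ Real.log (X : ℝ) := Real.log_natCast_nonneg X
  split_ifs <;> positivity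

/-- the local factor with the truncation -/
noncomputable def GX (k M : ℕ) (δ : ℝ) (X : ℕ) (s : Unit → ℕ) : ℝ :=
  ∑ τ ∈ Th (s ()), Wt M δ X τ * G3 k τ

lemma GX_nonneg (k M : ℕ) (δ : ℝ) (X : ℕ) (s : Unit → ℕ) : 0 ≤ GX k M δ X s :=
  sum_nonneg fun _ _ => mul_nonneg (Wt_nonneg _ _ _ _) (G3_nonneg _ _)

open Classical in
lemma avg_GX (k M : ℕ) {δ : ℝ} {z : ℕ} (hz : 8 ≤ z) {lam C1 C2 : ℝ} (hC1 : 0 ≤ C1)
    (hC2 : 0 ≤ C2)
    (h1 : ∀ X y : ℕ, z < y → y ≤ X → (Real.log X) ^ (1 - δ) ≤ Real.log y →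
      ∑ s ∈ (Tup (Fin 3) z y).filter (fun s => Win δ (LL X) (om3 s)),
        G3 k s * (∏ j, gw 1 3 (s j)) * (∏ j, (s j : ℝ)) ^ (lam / Real.log y) ≤
          C1 * (Real.log y) ^ 3)
    (h2 : ∀ y, z < y → ∑ s ∈ Tup (Fin 3) z y, G3 k s * (∏ j, gw 1 3 (s j)) *
      (∏ j, (s j : ℝ)) ^ (lam / Real.log y) ≤ C2 * (Real.log y) ^ M)
    (X y : ℕ) (hzy : z < y) (hyX : y ≤ X) :
    ∑ s ∈ Tup Unit z y, GX k M δ X s * (∏ j, gw 1 3 (s j)) *
      (∏ j, (s j : ℝ)) ^ (lam / Real.log y) ≤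
      (C1 + 2 * C2) * (Real.log y) ^ 3 * (if (Real.log X) ^ (1 - δ) ≤ Real.log y then 1
        else (Real.log X) ^ M) := by
  set f : (Fin 3 → ℕ) → ℝ := fun τ => G3 k τ * (∏ j, gw 1 3 (τ j)) *
    (∏ j, (τ j : ℝ)) ^ (lam / Real.log y) with hf
  have hf0 : ∀ τ ∈ Tup (Fin 3) z y, 0 ≤ f τ := by
    intro τ hτ
    refine mul_nonneg (mul_nonneg (G3_nonneg _ _) (prod_nonneg fun j _ => ?_)) ?_
    · exact gw_nonneg zero_le_one (by omega) ((mem_TupG.1 hτ).1 j)
    · exact Real.rpow_nonneg (prod_nonneg fun j _ => Nat.cast_nonneg _) _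
  have hsum : ∑ s ∈ Tup Unit z y, GX k M δ X s * (∏ j, gw 1 3 (s j)) *
      (∏ j, (s j : ℝ)) ^ (lam / Real.log y) = ∑ τ ∈ Tup (Fin 3) z y, Wt M δ X τ * f τ := by
    have e0 := sum_TupU (z := z) (y := y) (fun s => (∑ τ ∈ Th s, Wt M δ X τ * G3 k τ) *
      gw 1 3 s * (s : ℝ) ^ (lam / Real.log y))
    simp only [univ_unique, prod_singleton]
    refine e0.trans ?_
    rw [← sum_fib]
    refine sum_congr rfl fun s hs => ?_
    rw [sum_mul, sum_mul]
    refine sum_congr rfl fun τ hτ => ?_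
    have e1 := (mem_Th hs).1 hτ
    have e2 := gw_prod (Th_Tup hs hτ)
    rw [e1] at e2
    have e3 : (s : ℝ) = ∏ j, (τ j : ℝ) := by
      rw [← e1]
      push_cast
      rfl
    rw [hf]
    simp only
    rw [← e2, ← e3]
    ring
  rw [hsum]
  have hly : 1 ≤ Real.log y := AT.one_le_log (z := z) (by omega) hzy
  have hlX : Real.log y ≤ Real.log X :=
    Real.log_le_log (by exact_mod_cast (by omega : 0 < y)) (by exact_mod_cast hyX)
  have hlX1 : 1 ≤ Real.log X := hly.trans hlX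
  have hly3 : 1 ≤ (Real.log y) ^ 3 := one_le_pow₀ hly
  have hXM : 1 ≤ (Real.log X) ^ M := one_le_pow₀ hlX1
  have hyM : (Real.log y) ^ M ≤ (Real.log X) ^ M := pow_le_pow_left₀ (by linarith) hlX M
  have hsplit : ∑ τ ∈ Tup (Fin 3) z y, Wt M δ X τ * f τ =
      ∑ τ ∈ (Tup (Fin 3) z y).filter (fun s => Win δ (LL X) (om3 s)), f τ +
        ((Real.log X) ^ M)⁻¹ * ∑ τ ∈ Tup (Fin 3) z y, f τ := by
    rw [sum_filter, mul_sum, ← sum_add_distrib]
    refine sum_congr rfl fun τ _ => ?_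
    unfold Wt
    split_ifs <;> ring
  have hrest : ((Real.log X) ^ M)⁻¹ * ∑ τ ∈ Tup (Fin 3) z y, f τ ≤ C2 := by
    calc ((Real.log X) ^ M)⁻¹ * ∑ τ ∈ Tup (Fin 3) z y, f τ
        ≤ ((Real.log X) ^ M)⁻¹ * (C2 * (Real.log X) ^ M) := by
          refine mul_le_mul_of_nonneg_left ((h2 y hzy).trans ?_) (by positivity)
          exact mul_le_mul_of_nonneg_left hyM hC2
      _ = C2 := by field_simp
  have hC23 : C2 ≤ C2 * (Real.log y) ^ 3 := le_mul_of_one_le_right hC2 hly3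
  rw [hsplit]
  split_ifs with hc
  · have h3 := h1 X y hzy hyX hc
    rw [mul_one]
    have : 0 ≤ C2 * (Real.log y) ^ 3 := by positivity
    linarith
  · have h3 : ∑ τ ∈ (Tup (Fin 3) z y).filter (fun s => Win δ (LL X) (om3 s)), f τ ≤
        C2 * (Real.log X) ^ M := by
      calc _ ≤ ∑ τ ∈ Tup (Fin 3) z y, f τ :=
            sum_le_sum_of_subset_of_nonneg (filter_subset _ _) fun τ hτ _ => hf0 τ hτ
        _ ≤ C2 * (Real.log y) ^ M := h2 y hzy
        _ ≤ _ := mul_le_mul_of_nonneg_left hyM hC2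
    have h4 : C2 * (Real.log X) ^ M ≤ C2 * (Real.log y) ^ 3 * (Real.log X) ^ M :=
      mul_le_mul_of_nonneg_right hC23 (by positivity)
    have h5 : C2 ≤ C2 * (Real.log y) ^ 3 * (Real.log X) ^ M :=
      hC23.trans (le_mul_of_one_le_right (by positivity) hXM)
    have h6 : 0 ≤ C1 * (Real.log y) ^ 3 * (Real.log X) ^ M := by positivity
    calc _ ≤ C2 * (Real.log X) ^ M + C2 := add_le_add h3 hrest
      _ ≤ C2 * (Real.log y) ^ 3 * (Real.log X) ^ M + C2 * (Real.log y) ^ 3 * (Real.log X) ^ M +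
          C1 * (Real.log y) ^ 3 * (Real.log X) ^ M := by linarith
      _ = _ := by ring

lemma one_le_rkw (α β : Fin 3 → ℤ) (ω : ℕ × ℕ × ℕ) : 1 ≤ rkw α β ω := one_le_pow₀ (by norm_num)

/-- the bound at one point -/
lemma pt_bd {α β : Fin 3 → ℤ} {z : ℕ} (hb : Bg α β z)
    (hrel : ∀ x t : ℤ, fv α β x t 0 - fv α β x t 1 = fv α β x t 2) {k M : ℕ} {δ : ℝ}
    (_hδ : 0 < δ) {B CB : ℝ} (hB1 : 1 ≤ B) (hCB1 : 1 ≤ CB)
    (hBB : ∀ (Λ : ℝ) (E : ℕ), 0 ≤ Λ → δ * Λ ≤ Λ ^ (3 / 4 : ℝ) + z + E →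
      Real.exp (M * Λ) ≤ CB * B ^ E) {X y k' : ℕ} (hzy : z < y) (hyX : y ≤ X)
    (hA : ∏ j, ((α j).natAbs + (β j).natAbs) ≤ X) (hXk : X < (y + 1) ^ k')
    {ω : ℕ × ℕ × ℕ} (hω : ω ∈ TX α β X) (hty : Typ α β X ω) {s v : ℕ}
    (hs : S1 z y (fR α β ω) () = s) (hv : S2 z y (fR α β ω) () = v) :
    (rkw α β ω) ^ k ≤ Wt M δ X (tc α β z y ω) * (CB * (4 ^ (z + 2)) ^ k *
      ((4 ^ 7) ^ k * B ^ 7) ^ k' * (4 ^ k * B) ^ v.primeFactors.card) *
        ((4 ^ k * B) ^ ω.1.primeFactors.card * (NL s (Lw α β ω.1 ω.2.1 ω.2.2) : ℝ) ^ k) := by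
  classical
  obtain ⟨g, x, t⟩ := ω
  have hz8 : 8 ≤ z := by
    have := hb.1
    simpa using this
  have hX1 : 1 ≤ X := by omega
  obtain ⟨b1, b2, b3, b4, b5⟩ := mem_TX.1 hω
  have hXg : X ^ 2 / g ≤ X ^ 2 := Nat.div_le_self _ _
  have h7 : (F3 α β x t).natAbs ≤ X ^ 7 := by
    refine (F3_le α β (b2.2.trans hXg) (b3.2.trans hXg)).trans ?_
    rw [← pow_mul, show X ^ 7 = X * X ^ 6 by ring]
    exact Nat.mul_le_mul_right _ hA
  have h8 := rank2 (y := y) hb hrel hX1 (by omega) (by omega : g ≠ 0) b4 b5 h7 (by omega) hXk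
  rw [hs, hv] at h8
  have h9 : rkw α β (g, x, t) ≤
      4 ^ (z + 2) * (4 ^ 7) ^ k' * 4 ^ v.primeFactors.card * 4 ^ g.primeFactors.card *
        (NL s (Lw α β g x t) : ℝ) := by
    unfold rkw
    exact_mod_cast h8
  have hB0 : 0 < B := by linarith
  -- the factor is at least one
  have hfac : 1 ≤ Wt M δ X (tc α β z y (g, x, t)) *
      (CB * B ^ (7 * k' + v.primeFactors.card + g.primeFactors.card)) := by
    have hBE : 1 ≤ B ^ (7 * k' + v.primeFactors.card + g.primeFactors.card) := one_le_pow₀ hB1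
    have hlX1 : 1 ≤ Real.log X := (AT.one_le_log (z := z) (by omega) hzy).trans
      (Real.log_le_log (by exact_mod_cast (by omega : 0 < y)) (by exact_mod_cast hyX))
    have hlX0 : 0 < Real.log X := by linarith
    unfold Wt
    by_cases hw : Win δ (LL X) (om3 (tc α β z y (g, x, t)))
    · rw [if_pos hw]
      have h1 : 0 ≤ ((Real.log X) ^ M)⁻¹ := by positivity
      exact one_le_mul_of_one_le_of_one_le (by linarith) (one_le_mul_of_one_le_of_one_le hCB1 hBE)
    · rw [if_neg hw, zero_add]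
      have hΛ0 : 0 ≤ LL X := Real.log_nonneg hlX1
      have h1 : Real.exp (M * LL X) ≤
          CB * B ^ (7 * k' + v.primeFactors.card + g.primeFactors.card) := by
        apply hBB _ _ hΛ0
        unfold Win at hw
        push Not at hw
        obtain ⟨c, hc⟩ := hw
        obtain ⟨c1, c2⟩ := cnt_bd (y := y) hb hX1 (by omega) (by omega : g ≠ 0) b5 h7 (by omega)
          hXk c
        rw [hv] at c2
        have c3 := abs_le.1 (hty c)
        simp only at c3
        have c1' : (om3 (tc α β z y (g, x, t)) c : ℝ) ≤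
            ((fv α β x t c).natAbs.primeFactors.card : ℝ) := by exact_mod_cast c1
        have c2' : ((fv α β x t c).natAbs.primeFactors.card : ℝ) ≤
            om3 (tc α β z y (g, x, t)) c + (z + 7 * k' + v.primeFactors.card +
              g.primeFactors.card) := by exact_mod_cast c2
        push_cast
        have hz0 : (0 : ℝ) ≤ z := Nat.cast_nonneg z
        have hk0 : (0 : ℝ) ≤ k' := Nat.cast_nonneg k'
        have hv0 : (0 : ℝ) ≤ v.primeFactors.card := Nat.cast_nonneg _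
        have hg0 : (0 : ℝ) ≤ g.primeFactors.card := Nat.cast_nonneg _
        by_cases h2 : (1 - δ) * LL X ≤ om3 (tc α β z y (g, x, t)) c
        · have h3 := hc h2
          linarith [c3.1, c3.2]
        · push Not at h2
          linarith [c3.1, c3.2]
      have h2 : Real.exp (M * LL X) = (Real.log X) ^ M := by
        unfold LL
        rw [Real.exp_nat_mul, Real.exp_log hlX0]
      rw [h2] at h1
      rw [inv_mul_eq_div, le_div_iff₀ (by positivity), one_mul]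
      exact h1
  set Q : ℝ := (4 ^ (z + 2)) ^ k * ((4 ^ 7) ^ k) ^ k' * (4 ^ k) ^ v.primeFactors.card *
    (4 ^ k) ^ g.primeFactors.card * (NL s (Lw α β g x t) : ℝ) ^ k with hQ
  have hQ0 : 0 ≤ Q := by positivity
  have h10 : (rkw α β (g, x, t)) ^ k ≤ Q := by
    refine (pow_le_pow_left₀ (by have := one_le_rkw α β (g, x, t); linarith) h9 k).trans
      (le_of_eq ?_)
    rw [hQ, mul_pow, mul_pow, mul_pow, mul_pow, ← pow_mul ((4 : ℝ) ^ 7) k' k,
      ← pow_mul (4 : ℝ) v.primeFactors.card k, ← pow_mul (4 : ℝ) g.primeFactors.card k,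
      mul_comm k' k, mul_comm v.primeFactors.card k, mul_comm g.primeFactors.card k,
      pow_mul ((4 : ℝ) ^ 7) k k', pow_mul (4 : ℝ) k v.primeFactors.card,
      pow_mul (4 : ℝ) k g.primeFactors.card]
  calc (rkw α β (g, x, t)) ^ k ≤ 1 * Q := by rw [one_mul]; exact h10
    _ ≤ (Wt M δ X (tc α β z y (g, x, t)) *
      (CB * B ^ (7 * k' + v.primeFactors.card + g.primeFactors.card))) * Q :=
        mul_le_mul_of_nonneg_right hfac hQ0
    _ = _ := by
        rw [hQ, mul_pow ((4 ^ 7) ^ k : ℝ), mul_pow ((4 : ℝ) ^ k), mul_pow ((4 : ℝ) ^ k),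
          ← pow_mul B, pow_add, pow_add]
        ring

/-- **J** the core -/
theorem coreF (hRNK : S_RNK) (hTRV : S_TRV) (hANT : S_ANT) (hTC : S_TC) (hCNT : S_CNT) :
    S_CORE := by
  classical
  intro α β hα hres hrel
  suffices H : ∀ k : ℕ, 1 ≤ k → ∃ C : ℝ, ∀ X : ℕ, 1 ≤ X →
      ∑ ω ∈ (TX α β X).filter (fun ω => Typ α β X ω), (rkw α β ω) ^ k ≤ C * (X : ℝ) ^ 4 by
    intro k
    rcases Nat.eq_zero_or_pos k with rfl | hk
    · obtain ⟨C, hC⟩ := H 1 le_rfl
      refine ⟨C, fun X hX => (sum_le_sum fun ω _ => ?_).trans (hC X hX)⟩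
      rw [pow_zero, pow_one]
      exact one_le_rkw _ _ _
    · exact H k hk
  intro k hk
  obtain ⟨δ1, hδ1, hδ4, z0, hz08, hR⟩ := hRNK k hk
  obtain ⟨M, hT⟩ := hTRV k
  obtain ⟨z1, hz1⟩ := bg_large hα hres
  set z : ℕ := z0 + z1 with hz
  have hb : Bg α β z := hz1 z (by omega)
  obtain ⟨B, CB, hB1, hCB1, hBB⟩ := typ_bd M z hδ1
  have hB0 : 0 < B := by linarith
  have h4B : 1 ≤ (4 : ℝ) ^ k * B :=
    one_le_mul_of_one_le_of_one_le (one_le_pow₀ (by norm_num)) hB1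
  obtain ⟨C, K, y0, hC0, hK1, hcnt⟩ := hCNT z k (4 ^ k * B) (by omega) h4B
  set A : ℕ := ∏ j, ((α j).natAbs + (β j).natAbs) with hA
  obtain ⟨C2, hC2⟩ := hANT (ℕ × ℕ × ℕ) (TX α β) (fR α β) (fun X => (X : ℝ) ^ 4) z 3 3 M
    (GX k M δ1) (fun X ω => if Typ α β X ω then (rkw α β ω) ^ k else 0)
    (fun ω => (rkw α β ω) ^ k) (3 * (4 ^ k * B)) (CB * (4 ^ (z + 2)) ^ k * C)
    ((4 ^ 7) ^ k * B ^ 7) δ1 K (y0 + A + 1) (by positivity) (by omega)
    (fun X Y hXY => TX_mono hXY) (fun X hX => one_le_pow₀ (by exact_mod_cast hX))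
    (fun X ω _ => gd_fR α β z ω) (fun X s => GX_nonneg _ _ _ _ _)
    (fun X ω => by
      have := one_le_rkw α β ω
      split_ifs
      · positivity
      · exact le_rfl)
    (fun X ω => by
      have := one_le_rkw α β ω
      split_ifs
      · exact le_rfl
      · positivity)
    (by positivity)
    (one_le_mul_of_one_le_of_one_le (one_le_pow₀ (one_le_pow₀ (by norm_num))) (one_le_pow₀ hB1))
    hK1 hδ1 (by linarith)
    (fun lam hlam => by
      obtain ⟨Ca, hCa, h1⟩ := hR z (by omega) lam hlam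
      obtain ⟨Cb, hCb, h2⟩ := hT lam hlam z (by omega)
      refine ⟨Ca + 2 * Cb, fun X y hzy hyX => ?_⟩
      exact avg_GX k M (by omega) hCa hCb h1 h2 X y hzy hyX)
    (by
      intro X y Y k' hy hzy hyX hXk s hs v hv u hu hsvu T' hT' hT
      have hs' := mem_TupU.1 hs
      have hv' := mem_TupU.1 hv
      have hu' := mem_TupU.1 hu
      simp only [univ_unique, prod_singleton] at hsvu ⊢
      have hyX1 : y ≤ X := le_trans (Nat.le_self_pow (by omega) y) hyX
      have hX1 : 1 ≤ X := by omega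
      have hTT : ∀ ω ∈ T', ω ∈ TX α β X ∧ S1 z y (fR α β ω) () = s () ∧
          S2 z y (fR α β ω) () = v () ∧ ((u () : ℕ) : ℤ) ∣ fR α β ω () := by
        intro ω hω
        obtain ⟨h1, h2, h3⟩ := hT ω hω
        exact ⟨hT' hω, congrFun h1 (), congrFun h2 (), h3 ()⟩
      have hmaps : ∀ ω ∈ T', tc α β z y ω ∈ Th (s ()) := by
        intro ω hω
        obtain ⟨h1, h2, -, -⟩ := hTT ω hω
        obtain ⟨-, h4⟩ := hTC α β z y X hb ω h1
        rw [mem_Th hs', h4, h2]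
      rw [← sum_fiberwise_of_maps_to hmaps]
      have hlog : 0 ≤ (Real.log y) ^ 3 := pow_nonneg (Real.log_natCast_nonneg y) _
      have hgs := gw3_nonneg (z := z) (by omega) hs'
      have hgv := gw3_nonneg (z := z) (by omega) hv'
      -- one factorisation
      have hone : ∀ τ ∈ Th (s ()), ∑ ω ∈ T'.filter (fun ω => tc α β z y ω = τ),
          (if Typ α β X ω then (rkw α β ω) ^ k else 0) ≤
          Wt M δ1 X τ * (CB * (4 ^ (z + 2)) ^ k * ((4 ^ 7) ^ k * B ^ 7) ^ k' *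
            (4 ^ k * B) ^ (v ()).primeFactors.card) *
          (C * X ^ 4 * (G3 k τ * gw 1 3 (s ())) *
            (3 ^ (v ()).primeFactors.card * (gw 1 3 (v ()) / v ())) *
            (3 ^ (u ()).primeFactors.card / u ()) / (Real.log y) ^ 3) := by
        intro τ hτ
        have hτs := (mem_Th hs').1 hτ
        have hc := hcnt α β hb X y Y (v ()) (u ()) τ (by omega) hzy hyX (Th_Tup hs' hτ) hv' hu'
          (by rw [hτs]; exact hsvu) (T'.filter (fun ω => tc α β z y ω = τ)) (by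
            intro ω hω
            rw [mem_filter] at hω
            obtain ⟨h1, -, h3, h4⟩ := hTT ω hω.1
            exact ⟨h1, hω.2, h3, h4⟩)
        rw [hτs] at hc
        refine le_trans ?_ (mul_le_mul_of_nonneg_left hc (mul_nonneg (Wt_nonneg _ _ _ _)
          (by positivity)))
        rw [mul_sum]
        refine sum_le_sum fun ω hω => ?_
        rw [mem_filter] at hω
        obtain ⟨h1, h2, h3, -⟩ := hTT ω hω.1
        have hW := Wt_nonneg M δ1 X τ
        split_ifs with hty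
        · have := pt_bd (k := k) hb hrel hδ1 hB1 hCB1 hBB hzy hyX1 (by omega) hXk h1 hty h2 h3
          rw [hω.2] at this
          exact this
        · positivity
      refine (sum_le_sum hone).trans ?_
      have hsum : ∑ τ ∈ Th (s ()), Wt M δ1 X τ * (CB * (4 ^ (z + 2)) ^ k *
            ((4 ^ 7) ^ k * B ^ 7) ^ k' * (4 ^ k * B) ^ (v ()).primeFactors.card) *
          (C * X ^ 4 * (G3 k τ * gw 1 3 (s ())) *
            (3 ^ (v ()).primeFactors.card * (gw 1 3 (v ()) / v ())) *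
            (3 ^ (u ()).primeFactors.card / u ()) / (Real.log y) ^ 3) =
          CB * (4 ^ (z + 2)) ^ k * C * ((4 ^ 7) ^ k * B ^ 7) ^ k' * X ^ 4 *
            (GX k M δ1 X s * gw 1 3 (s ())) *
            ((3 * (4 ^ k * B)) ^ (v ()).primeFactors.card * (gw 1 3 (v ()) / v ())) *
            (3 ^ (u ()).primeFactors.card / u ()) / (Real.log y) ^ 3 := by
        unfold GX
        rw [mul_pow 3 ((4 : ℝ) ^ k * B), sum_mul, mul_sum, sum_mul, sum_mul, sum_div]
        refine sum_congr rfl fun τ _ => ?_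
        ring
      rw [hsum]
      have hcu : (3 : ℝ) ^ (u ()).primeFactors.card / (u () : ℝ) ≤
          (3 * (4 ^ k * B)) ^ (u ()).primeFactors.card / (u () : ℝ) := by
        apply div_le_div_of_nonneg_right _ (Nat.cast_nonneg _)
        exact pow_le_pow_left₀ (by norm_num) (by linarith) _
      have hGX := GX_nonneg k M δ1 X s
      exact div_le_div_of_nonneg_right (mul_le_mul_of_nonneg_left hcu (by positivity)) hlog)
  refine ⟨C2, fun X hX => ?_⟩
  have h := hC2 X hX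
  rw [← sum_filter] at h
  exact h

end Pool.Agent.L0h5.TT
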