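import Pool.Agent.L0h5.TT.Stm
import Pool.Agent.L0h5.TF.Main

/-!
# Factorisations into three factors, the comparison of the numbers of the primes
-/

set_option autoImplicit false

namespace Pool.Agent.L0h5.TT

open Finset Pool.Agent.W262.RK Pool.Agent.L0h5.TF Pool.Agent.L0h94.FT
open Pool.Agent.W307.RT (S1 S2 Gd fv)

/-- the factorisations into three factors -/
def Th (s : ℕ) : Finset (Fin 3 → ℕ) :=
  (Fintype.piFinset (fun _ : Fin 3 => s.divisors)).filter (fun τ => ∏ j, τ j = s)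

lemma mem_TupG {ι : Type} [Fintype ι] [DecidableEq ι] {z y : ℕ} {d : ι → ℕ} :
    d ∈ Tup ι z y ↔ (∀ i, d i ∈ (PP z y).divisors) ∧ ∀ i j, i ≠ j → (d i).Coprime (d j) := by
  unfold Tup
  rw [mem_filter, Fintype.mem_piFinset]

lemma Tup_prod {z y : ℕ} {τ : Fin 3 → ℕ} (h : τ ∈ Tup (Fin 3) z y) :
    ∏ j, τ j ∈ (PP z y).divisors := by
  rw [mem_TupG] at h
  rw [Nat.mem_divisors]
  exact ⟨Finset.prod_dvd_of_isRelPrime (fun i _ j _ hij =>
    Nat.coprime_iff_isRelPrime.1 (h.2 i j hij)) fun b _ => Nat.dvd_of_mem_divisors (h.1 b),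
    PP_ne_zero z y⟩

lemma Tup_iff {z y : ℕ} {τ : Fin 3 → ℕ} : τ ∈ Tup (Fin 3) z y ↔ ∏ j, τ j ∈ (PP z y).divisors := by
  refine ⟨Tup_prod, fun h => ?_⟩
  have hsq := dv_squarefree h
  rw [mem_TupG]
  refine ⟨fun j => ?_, fun i j hij => ?_⟩
  · rw [Nat.mem_divisors]
    exact ⟨(dvd_prod_of_mem τ (mem_univ j)).trans (Nat.dvd_of_mem_divisors h), PP_ne_zero z y⟩
  · have h1 : τ i * τ j ∣ ∏ l, τ l := by
      rw [← mul_prod_erase univ τ (mem_univ i)]
      exact mul_dvd_mul_left _ (dvd_prod_of_mem τ (mem_erase.2 ⟨hij.symm, mem_univ j⟩))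
    exact Nat.coprime_of_squarefree_mul (hsq.squarefree_of_dvd h1)

lemma mem_Th {z y s : ℕ} (hs : s ∈ (PP z y).divisors) {τ : Fin 3 → ℕ} :
    τ ∈ Th s ↔ ∏ j, τ j = s := by
  unfold Th
  rw [mem_filter, Fintype.mem_piFinset]
  refine ⟨fun h => h.2, fun h => ⟨fun j => ?_, h⟩⟩
  exact Nat.mem_divisors.2 ⟨h ▸ dvd_prod_of_mem τ (mem_univ j), dv_ne_zero hs⟩

lemma Th_Tup {z y s : ℕ} (hs : s ∈ (PP z y).divisors) {τ : Fin 3 → ℕ} (h : τ ∈ Th s) :
    τ ∈ Tup (Fin 3) z y := by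
  rw [Tup_iff, (mem_Th hs).1 h]
  exact hs

lemma sum_fib (z y : ℕ) (f : (Fin 3 → ℕ) → ℝ) :
    ∑ s ∈ (PP z y).divisors, ∑ τ ∈ Th s, f τ = ∑ τ ∈ Tup (Fin 3) z y, f τ := by
  rw [← sum_fiberwise_of_maps_to (s := Tup (Fin 3) z y) (t := (PP z y).divisors)
    (g := fun τ => ∏ j, τ j) (fun τ h => Tup_prod h) f]
  refine sum_congr rfl fun s hs => ?_
  congr 1
  ext τ
  rw [mem_filter, Tup_iff, mem_Th hs]
  constructor
  · intro h
    exact ⟨by rw [h]; exact hs, h⟩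
  · rintro ⟨_, h⟩
    exact h

lemma gw_prod {z y : ℕ} {τ : Fin 3 → ℕ} (h : τ ∈ Tup (Fin 3) z y) :
    gw 1 3 (∏ j, τ j) = ∏ j, gw 1 3 (τ j) := by
  have h0 := dv_ne_zero (Tup_prod h)
  rw [mem_TupG] at h
  have h1 : (∏ j, τ j).primeFactors = univ.biUnion (fun j => (τ j).primeFactors) := by
    ext p
    rw [mem_biUnion, Nat.mem_primeFactors]
    constructor
    · rintro ⟨hp, hpd, -⟩
      obtain ⟨b, -, hb⟩ := (hp.prime.dvd_finsetProd_iff _).1 hpd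
      exact ⟨b, mem_univ b, Nat.mem_primeFactors.2 ⟨hp, hb, dv_ne_zero (h.1 b)⟩⟩
    · rintro ⟨b, -, hb⟩
      rw [Nat.mem_primeFactors] at hb
      exact ⟨hb.1, hb.2.1.trans (dvd_prod_of_mem τ (mem_univ b)), h0⟩
  unfold gw
  rw [h1, prod_biUnion]
  intro i _ j _ hij
  exact (h.2 i j hij).disjoint_primeFactors

section

variable {α β : Fin 3 → ℤ} {z : ℕ}

lemma dvd_tc {y : ℕ} {ω : ℕ × ℕ × ℕ} {c : Fin 3} {p : ℕ} (hp : p.Prime) :
    p ∣ tc α β z y ω c ↔ p ∈ PS z y ∧ ¬ p ∣ ω.1 ∧ (p : ℤ) ∣ fv α β ω.2.1 ω.2.2 c ∧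
      ¬ (p : ℤ) ^ 2 ∣ F3 α β ω.2.1 ω.2.2 := by
  classical
  unfold tc
  rw [prime_dvd_prodS (fun q hq => (mem_PS.1 (mem_filter.1 hq).1).2) hp, mem_filter]

lemma tc_ne {y : ℕ} {ω : ℕ × ℕ × ℕ} {c : Fin 3} : tc α β z y ω c ≠ 0 := by
  classical
  unfold tc
  exact prod_ne_zero_iff.2 fun p hp => (mem_PS.1 (mem_filter.1 hp).1).2.ne_zero

lemma cnt_bd (hb : Bg α β z) {g x t y X K E : ℕ} (hX : 1 ≤ X) (hy : 1 ≤ y) (hg : g ≠ 0)
    (h0 : F3 α β x t ≠ 0) (hbd : (F3 α β x t).natAbs ≤ X ^ E) (hE : 1 ≤ E)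
    (hK : X < (y + 1) ^ K) (c : Fin 3) :
    om3 (tc α β z y (g, x, t)) c ≤ (fv α β x t c).natAbs.primeFactors.card ∧
    (fv α β x t c).natAbs.primeFactors.card ≤ om3 (tc α β z y (g, x, t)) c +
      (z + E * K + (S2 z y (fR α β (g, x, t)) ()).primeFactors.card + g.primeFactors.card) := by
  classical
  have hFj : ∀ j, fv α β x t j ≠ 0 := by
    unfold F3 at h0
    rw [prod_ne_zero_iff] at h0
    exact fun j => h0 j (mem_univ j)
  have hgi : (g : ℤ) ≠ 0 := by exact_mod_cast hg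
  constructor
  · unfold om3
    refine card_le_card fun p hp => ?_
    have hpp := Nat.prime_of_mem_primeFactors hp
    have h1 := (dvd_tc hpp).1 (Nat.dvd_of_mem_primeFactors hp)
    exact Nat.mem_primeFactors.2 ⟨hpp, Int.natCast_dvd.1 h1.2.2.1, Int.natAbs_ne_zero.2 (hFj c)⟩
  · have hbad := bad2 (y := y) hb hX hy hg h0 hbd hE hK
    have hsub : (fv α β x t c).natAbs.primeFactors ⊆ (tc α β z y (g, x, t) c).primeFactors ∪
        ((2 * (g * fv α β x t 0) * (g * fv α β x t 1) * (g * fv α β x t 2)).natAbs.primeFactors.filter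
          (fun q => ¬ q ∣ S1 z y (fR α β (g, x, t)) ())) := by
      intro p hp
      have hpp := Nat.prime_of_mem_primeFactors hp
      have hpd := Int.natCast_dvd.2 (Nat.dvd_of_mem_primeFactors hp)
      rw [mem_union, mem_filter]
      by_cases hS : p ∣ S1 z y (fR α β (g, x, t)) ()
      · left
        have h1 := (dvd_S1R hpp h0).1 hS
        exact Nat.mem_primeFactors.2 ⟨hpp, (dvd_tc hpp).2 ⟨h1.1, h1.2.1, hpd, h1.2.2.2⟩, tc_ne⟩
      · right
        refine ⟨Nat.mem_primeFactors.2 ⟨hpp, Int.natCast_dvd.1 ?_, Int.natAbs_ne_zero.2 ?_⟩, hS⟩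
        · have h2 : 2 * ((g : ℤ) * fv α β x t 0) * (g * fv α β x t 1) * (g * fv α β x t 2) =
              (2 * ((g : ℤ) * (g * g))) * F3 α β x t := by
            unfold F3
            rw [Fin.prod_univ_three]
            ring
          rw [h2]
          refine Dvd.dvd.mul_left ?_ _
          unfold F3
          exact hpd.trans (dvd_prod_of_mem _ (mem_univ c))
        · exact mul_ne_zero (mul_ne_zero (mul_ne_zero two_ne_zero (mul_ne_zero hgi (hFj 0)))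
            (mul_ne_zero hgi (hFj 1))) (mul_ne_zero hgi (hFj 2))
    refine (card_le_card hsub).trans ((card_union_le _ _).trans ?_)
    unfold om3
    omega

end

/-- the factor for the points that are typical although their small part is not -/
lemma typ_bd (M z : ℕ) {δ : ℝ} (hδ : 0 < δ) : ∃ B CB : ℝ, 1 ≤ B ∧ 1 ≤ CB ∧
    ∀ (Λ : ℝ) (E : ℕ), 0 ≤ Λ → δ * Λ ≤ Λ ^ (3 / 4 : ℝ) + z + E →
      Real.exp (M * Λ) ≤ CB * B ^ E := by
  set a : ℝ := 2 / δ with ha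
  have ha0 : 0 < a := by positivity
  have hM0 : (0 : ℝ) ≤ M := Nat.cast_nonneg M
  have hz0 : (0 : ℝ) ≤ z := Nat.cast_nonneg z
  refine ⟨Real.exp (M * a), Real.exp (M * a * (a ^ 3 + z)), Real.one_le_exp (by positivity),
    Real.one_le_exp (by positivity), fun Λ E hΛ h => ?_⟩
  have h1 : Λ ^ (3 / 4 : ℝ) ≤ Λ / a + a ^ 3 := by
    rcases le_or_gt Λ (a ^ 4) with h2 | h2
    · have h3 : Λ ^ (3 / 4 : ℝ) ≤ (a ^ 4) ^ (3 / 4 : ℝ) :=
        Real.rpow_le_rpow hΛ h2 (by norm_num)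
      have h4 : (a ^ 4 : ℝ) ^ (3 / 4 : ℝ) = a ^ 3 := by
        rw [← Real.rpow_natCast a 4, ← Real.rpow_mul ha0.le, ← Real.rpow_natCast a 3]
        norm_num
      rw [h4] at h3
      have : 0 ≤ Λ / a := by positivity
      linarith
    · have hΛ0 : 0 < Λ := lt_trans (by positivity) h2
      have h3 : a ≤ Λ ^ (1 / 4 : ℝ) := by
        have h4 : (a ^ 4 : ℝ) ^ (1 / 4 : ℝ) ≤ Λ ^ (1 / 4 : ℝ) :=
          Real.rpow_le_rpow (by positivity) h2.le (by norm_num)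
        have h5 : (a ^ 4 : ℝ) ^ (1 / 4 : ℝ) = a := by
          rw [← Real.rpow_natCast a 4, ← Real.rpow_mul ha0.le]
          norm_num
        rwa [h5] at h4
      have h4 : Λ ^ (3 / 4 : ℝ) * Λ ^ (1 / 4 : ℝ) = Λ := by
        rw [← Real.rpow_add hΛ0]
        norm_num
      have h5 : 0 ≤ Λ ^ (3 / 4 : ℝ) := by positivity
      have h6 : Λ ^ (3 / 4 : ℝ) ≤ Λ / a := by
        rw [le_div_iff₀ ha0]
        calc Λ ^ (3 / 4 : ℝ) * a ≤ Λ ^ (3 / 4 : ℝ) * Λ ^ (1 / 4 : ℝ) :=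
              mul_le_mul_of_nonneg_left h3 h5
          _ = Λ := h4
      have : 0 < a ^ 3 := by positivity
      linarith
  have h2 : Λ ≤ a * (a ^ 3 + z + E) := by
    have h3 : δ * Λ ≤ Λ / a + a ^ 3 + z + E := by linarith
    have h4 : Λ / a = δ / 2 * Λ := by
      rw [ha]
      field_simp
    rw [h4] at h3
    have h5 : δ / 2 * Λ ≤ a ^ 3 + z + E := by linarith
    have h6 := mul_le_mul_of_nonneg_left h5 ha0.le
    have h7 : a * (δ / 2 * Λ) = Λ := by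
      rw [ha]
      field_simp
    linarith
  rw [← Real.exp_nat_mul, ← Real.exp_add]
  refine Real.exp_le_exp.2 ?_
  have h3 := mul_le_mul_of_nonneg_left h2 hM0
  refine h3.trans (le_of_eq ?_)
  ring

end Pool.Agent.L0h5.TT
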