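import Pool.Agent.L0h94.FT.Par

/-!
# Truncated moments for the curves with full two-torsion: the definitions and the statements

Project TT (helper5). Every `S_X` is the statement of one module.
-/

set_option autoImplicit false

namespace Pool.Agent.L0h5.TT

open Finset Pool.Agent.W262.RK Pool.Agent.L0h5.TF Pool.Agent.L0h5.AG Pool.Agent.L0h94.FT Filter
open Pool.Agent.W307.RT (S1 S2 Gd fv Cv Sh)

/-! ### The indices -/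

/-- the indices: a form, the divisors that contain the prime, the characters -/
def Ik (k : ℕ) : Type :=
  {i : Fin 3 × (Fin k → Bool) × (Fin k → Bool) //
    Even (univ.filter (fun j => (i.2.1 j && i.2.2 j) = true)).card}

instance (k : ℕ) : Fintype (Ik k) := by unfold Ik; infer_instance

instance (k : ℕ) : DecidableEq (Ik k) := by unfold Ik; infer_instance

/-- the form of an index -/
def ty {k : ℕ} (i : Ik k) : Fin 3 := i.1.1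

/-- the divisor part of the label -/
def vvk {k : ℕ} (c : Fin 3) (b : Fin k → Bool) : Vk k := fun j => ev c (b j)

/-- the character part of the label -/
def xxk {k : ℕ} (c : Fin 3) (x : Fin k → Bool) : Vk k := fun j => ex c (x j)

lemma nd_xv {k : ℕ} (c : Fin 3) (b x : Fin k → Bool) : Even (nd (xxk c x) (vvk c b)) := by
  have h1 : ∀ (c : Fin 3) (u v : Bool),
      Even ((if ((ex c v).1 && (ev c u).1) = true then 1 else 0) +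
        (if ((ex c v).2 && (ev c u).2) = true then 1 else 0)) := by decide
  unfold nd xxk vvk
  exact Finset.even_sum _ fun i _ => h1 c (b i) (x i)

/-- the label -/
def lbk {k : ℕ} (i : Ik k) : Lb k := ⟨(vvk i.1.1 i.1.2.1, xxk i.1.1 i.1.2.2), nd_xv _ _ _⟩

/-! ### The local densities, by forms -/

/-- the local density for a prime that divides the form `c` -/
noncomputable def lamc (k : ℕ) (c : Fin 3) (v h : Vk k) : ℝ :=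
  ∑ e : Bool, (1 / 2) * ∏ i, iL (Lce c e) (v i) (h i)

/-- the form of a prime -/
def tp (s : Fin 3 → ℕ) (p : ℕ) : Fin 3 := if p ∣ s 0 then 0 else if p ∣ s 1 then 1 else 2

/-- the average of the `k`-th power of the local count, by forms -/
noncomputable def G3 (k : ℕ) (s : Fin 3 → ℕ) : ℝ := Gs (fun p => lamc k (tp s p)) (∏ j, s j)

/-- the numbers of the primes -/
def om3 (s : Fin 3 → ℕ) : Fin 3 → ℕ := fun c => (s c).primeFactors.card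

/-- the exponent function of the Rankin trick -/
noncomputable def psi (δ r : ℝ) : ℝ := if 1 ≤ r then (1 - δ) * Real.log r else (1 + δ) * Real.log r

/-- `log log` -/
noncomputable def LL (y : ℕ) : ℝ := Real.log (Real.log y)

/-- the window -/
def Win (δ ℓ : ℝ) (n : Fin 3 → ℕ) : Prop := ∀ c, (1 - δ) * ℓ ≤ n c ∧ (n c : ℝ) ≤ (1 + δ) * ℓ

/-! ### A: coefficients -/

/-- **A** the coefficients of a product of linear factors -/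
def S_COEF : Prop := ∀ (S : Finset ℕ) (x φ : ℕ → ℝ) (N : ℕ), (∀ n, |φ n| ≤ 1) →
  (∀ n, N < n → φ n = 0) → |∑ T ∈ S.powerset, φ T.card * ∏ p ∈ T, x p| ≤
    (N + 1) * Real.exp (|∑ p ∈ S, x p| + ∑ p ∈ S, x p ^ 2)

/-! ### B: the truncated bound (helper5) -/

/-- **B** the truncated abstract bound -/
def S_AGF : Prop := ∀ (ι : Type) [Fintype ι] [DecidableEq ι] (t : ι → Fin 3) (e : ι → ℝ)
  (L : ι → ι → Bool) (c : ℕ) (K δ : ℝ),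
  (∀ i, 0 < e i) → (∀ i, L i i = false) → 0 ≤ K → 0 < δ → δ < 1 →
  (∀ U : Finset ι, (∀ i ∈ U, ∀ j ∈ U, L i j = L j i) →
    (∑ i ∈ U, e i ≤ K ∧ ∀ j, j ∉ U → ∃ i ∈ U, L i j ≠ L j i) ∨
    ∃ ρ : Fin 3 → ℝ, (∀ a, 0 < ρ a) ∧ ∑ i ∈ U, e i * ρ (t i) - ∑ a, psi δ (ρ a) < K) →
  ∃ z0 : ℕ, ∀ z, z0 ≤ z → ∀ (g : ι → ℕ → ℝ) (Cg : ℝ),
    (∀ i p, p.Prime → z < p → |g i p| ≤ (1 / 2) / ((p : ℝ) - c)) →
    (∀ i (y : ℕ), z < y → ∑ p ∈ PS z y, |g i p| ≤ e i * Real.log (Real.log y) + Cg) →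
    ∃ C : ℝ, ∀ y, z < y → ∀ F : (Fin 3 → ℕ) → ℝ, (∀ n, |F n| ≤ 1) →
      (∀ n, F n ≠ 0 → Win δ (LL y) n) →
      |∑ d ∈ Tup ι z y, ((∏ i, gg g i (d i)) * Sym L (fun _ => 1) d) *
        F (fun a => ∑ i ∈ univ.filter (fun i => t i = a), (d i).primeFactors.card)| ≤
          C * (Real.log y) ^ K

/-! ### C: combinatorics -/

/-- **C** the unlinked sets -/
def S_CMB : Prop := ∀ k : ℕ, 1 ≤ k → ∃ δ0 : ℝ, 0 < δ0 ∧ δ0 ≤ 1 / 2 ∧ ∀ δ, 0 < δ → δ ≤ δ0 →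
  ∀ U : Finset (Ik k), (∀ i ∈ U, ∀ j ∈ U, Lki lbk i j = Lki lbk j i) →
    (∑ _i ∈ U, (1 / 2 : ℝ) ^ k ≤ 3 ∧ ∀ j, j ∉ U → ∃ i ∈ U, Lki lbk i j ≠ Lki lbk j i) ∨
    ∃ ρ : Fin 3 → ℝ, (∀ a, 0 < ρ a) ∧
      ∑ i ∈ U, (1 / 2 : ℝ) ^ k * ρ (ty i) - ∑ a, psi δ (ρ a) < 3

/-! ### D: the expansion -/

/-- **D1** the local density in characters -/
def S_LAM : Prop := ∀ (k : ℕ) (c : Fin 3) (v h : Vk k), lamc k c v h =
  ∑ i : Ik k, if ty i = c ∧ (lbk i).1.1 = v then (1 / 2 : ℝ) ^ k * chi (lbk i).1.2 h else 0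

/-- **D2** the expansion of the truncated average -/
def S_EXP : Prop := ∀ (k z y : ℕ) (F : (Fin 3 → ℕ) → ℝ),
  ∑ s ∈ Tup (Fin 3) z y, F (om3 s) * (G3 k s * ∏ j, gw 1 3 (s j)) =
    ∑ d ∈ Tup (Ik k) z y, ((∏ i, gg (wi (fun _ => (1 / 2 : ℝ) ^ k) 3) i (d i)) *
      Sym (Lki lbk) (fun _ => 1) d) *
      F (fun a => ∑ i ∈ univ.filter (fun i => ty i = a), (d i).primeFactors.card)

/-! ### E: growth and trivial bounds -/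

/-- **E1** the growth of `G3` -/
def S_GRO : Prop := ∀ (k : ℕ) (s e : Fin 3 → ℕ), Squarefree (∏ j, s j * e j) →
  0 ≤ G3 k s ∧ G3 k (fun j => s j * e j) ≤ ((4 : ℝ) ^ k) ^ (∑ j, (e j).primeFactors.card) * G3 k s

/-- **E2** the trivial bound for the average -/
def S_TRV : Prop := ∀ k : ℕ, ∃ M : ℕ, ∀ lam : ℝ, 0 ≤ lam → ∀ z : ℕ, 8 ≤ z → ∃ C : ℝ, 0 ≤ C ∧
  ∀ y, z < y → ∑ s ∈ Tup (Fin 3) z y, G3 k s * (∏ j, gw 1 3 (s j)) *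
    (∏ j, (s j : ℝ)) ^ (lam / Real.log y) ≤ C * (Real.log y) ^ M

/-! ### F: the average over the window -/

open Classical in
/-- **F** the average over the window (from B, C, D) -/
def S_AVG : Prop := ∀ k : ℕ, 1 ≤ k → ∃ δ0 : ℝ, 0 < δ0 ∧ δ0 ≤ 1 / 2 ∧ ∃ z0 : ℕ, 8 ≤ z0 ∧
  ∀ z, z0 ≤ z → ∃ C : ℝ, 0 ≤ C ∧ ∀ y, z < y →
    ∑ s ∈ (Tup (Fin 3) z y).filter (fun s => Win δ0 (LL y) (om3 s)),
      G3 k s * ∏ j, gw 1 3 (s j) ≤ C * (Real.log y) ^ 3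

/-! ### G: the Rankin trick in the window -/

open Classical in
/-- **G** the average over the window with the Rankin factor (from E, F) -/
def S_RNK : Prop := ∀ k : ℕ, 1 ≤ k → ∃ δ1 : ℝ, 0 < δ1 ∧ δ1 ≤ 1 / 4 ∧ ∃ z0 : ℕ, 8 ≤ z0 ∧
  ∀ z, z0 ≤ z → ∀ lam : ℝ, 0 ≤ lam → ∃ C : ℝ, 0 ≤ C ∧ ∀ X y : ℕ, z < y → y ≤ X →
    (Real.log X) ^ (1 - δ1) ≤ Real.log y →
    ∑ s ∈ (Tup (Fin 3) z y).filter (fun s => Win δ1 (LL X) (om3 s)),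
      G3 k s * (∏ j, gw 1 3 (s j)) * (∏ j, (s j : ℝ)) ^ (lam / Real.log y) ≤
        C * (Real.log y) ^ 3

/-! ### H: the abstract summation with functions that depend on the height -/

open Classical in
/-- **H** the abstract summation; `G X`, `R X` depend on `X` -/
def S_ANT : Prop := ∀ (Ω : Type) (T : ℕ → Finset Ω) (f : Ω → Unit → ℤ) (S : ℕ → ℝ)
  (z c N M : ℕ) (G : ℕ → (Unit → ℕ) → ℝ) (R : ℕ → Ω → ℝ) (R' : Ω → ℝ) (b C D δ : ℝ) (K y0 : ℕ),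
  0 ≤ b → 2 * c + 2 ≤ z → (∀ X Y, X ≤ Y → T X ⊆ T Y) → (∀ X, 1 ≤ X → 1 ≤ S X) →
  (∀ X, ∀ ω ∈ T X, Gd z (f ω)) → (∀ X s, 0 ≤ G X s) → (∀ X ω, 0 ≤ R X ω) →
  (∀ X ω, R X ω ≤ R' ω) → 0 ≤ C → 1 ≤ D → 1 ≤ K → 0 < δ → δ < 1 →
  (∀ lam : ℝ, 0 ≤ lam → ∃ A : ℝ, ∀ X y : ℕ, z < y → y ≤ X →
    ∑ s ∈ Tup Unit z y, G X s * (∏ j, gw 1 c (s j)) * (∏ j, (s j : ℝ)) ^ (lam / Real.log y) ≤
      A * (Real.log y) ^ N * (if (Real.log X) ^ (1 - δ) ≤ Real.log y then 1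
        else (Real.log X) ^ M)) →
  (∀ X y Y k : ℕ, y0 ≤ y → z < y → y ^ K ≤ X → X < (y + 1) ^ k → ∀ s ∈ Tup Unit z y,
    ∀ v ∈ Tup Unit z y, ∀ u ∈ Tup Unit y Y, (∏ j, s j * v j * u j) ^ 8 ≤ X →
    ∀ T' : Finset Ω, T' ⊆ T X → (∀ ω ∈ T', S1 z y (f ω) = s ∧ S2 z y (f ω) = v ∧
      ∀ j, (u j : ℤ) ∣ f ω j) →
    ∑ ω ∈ T', R X ω ≤
      C * D ^ k * S X * (G X s * ∏ j, gw 1 c (s j)) *
        (∏ j, b ^ (v j).primeFactors.card * (gw 1 c (v j) / v j)) *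
        (∏ j, b ^ (u j).primeFactors.card / (u j : ℝ)) / (Real.log y) ^ N) →
  ∃ C2 : ℝ, ∀ X : ℕ, 1 ≤ X → ∑ ω ∈ T X, R X ω ≤ C2 * S X

/-! ### I: the count, by forms -/

open Classical in
/-- the small primes that divide the form `c` -/
noncomputable def tc (α β : Fin 3 → ℤ) (z y : ℕ) (ω : ℕ × ℕ × ℕ) (c : Fin 3) : ℕ :=
  ∏ p ∈ (PS z y).filter (fun p : ℕ => ¬ p ∣ ω.1 ∧ (p : ℤ) ∣ fv α β ω.2.1 ω.2.2 c ∧
    ¬ (p : ℤ) ^ 2 ∣ F3 α β ω.2.1 ω.2.2), p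

/-- **I1** the decomposition of the small part by forms -/
def S_TC : Prop := ∀ (α β : Fin 3 → ℤ) (z y X : ℕ), Bg α β z → ∀ ω ∈ TX α β X,
  tc α β z y ω ∈ Tup (Fin 3) z y ∧ ∏ c, tc α β z y ω c = S1 z y (fR α β ω) ()

/-- **I2** the sum of the powers of the local count over the points with given small part -/
def S_CNT : Prop := ∀ (z k : ℕ) (b0 : ℝ), 8 ≤ z → 1 ≤ b0 →
  ∃ (C : ℝ) (K y0 : ℕ), 0 ≤ C ∧ 1 ≤ K ∧ ∀ (α β : Fin 3 → ℤ), Bg α β z →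
  ∀ (X y Y v u : ℕ) (s : Fin 3 → ℕ), y0 ≤ y → z < y → y ^ K ≤ X → s ∈ Tup (Fin 3) z y →
  v ∈ (PP z y).divisors → u ∈ (PP y Y).divisors → ((∏ j, s j) * v * u) ^ 8 ≤ X →
  ∀ T : Finset (ℕ × ℕ × ℕ), (∀ ω ∈ T, ω ∈ TX α β X ∧ tc α β z y ω = s ∧
    S2 z y (fR α β ω) () = v ∧ (u : ℤ) ∣ fR α β ω ()) →
  ∑ ω ∈ T, b0 ^ ω.1.primeFactors.card *
    (NL (∏ j, s j) (Lw α β ω.1 ω.2.1 ω.2.2) : ℝ) ^ k ≤
    C * X ^ 4 * (G3 k s * gw 1 3 (∏ j, s j)) *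
      (3 ^ v.primeFactors.card * (gw 1 3 v / v)) * (3 ^ u.primeFactors.card / u) /
      (Real.log y) ^ 3

/-! ### J: the core -/

/-- the typical points: each form has about `log log X` prime factors -/
def Typ (α β : Fin 3 → ℤ) (X : ℕ) (ω : ℕ × ℕ × ℕ) : Prop :=
  ∀ c, |(((fv α β ω.2.1 ω.2.2 c).natAbs.primeFactors.card : ℕ) : ℝ) - LL X| ≤
    (LL X) ^ (3 / 4 : ℝ)

/-- `2 ^ rank` at a point -/
noncomputable def rkw (α β : Fin 3 → ℤ) (ω : ℕ × ℕ × ℕ) : ℝ :=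
  (2 : ℝ) ^ Module.finrank ℤ (EAB (ω.1 * fv α β ω.2.1 ω.2.2 0)
    (ω.1 * fv α β ω.2.1 ω.2.2 1)).toAffine.Point

open Classical in
/-- **J** the core (from G, E2, H, I) -/
def S_CORE : Prop := ∀ (α β : Fin 3 → ℤ), (∀ j, α j ≠ 0) → (∀ j l, j ≠ l → Res α β j l ≠ 0) →
  (∀ x t : ℤ, fv α β x t 0 - fv α β x t 1 = fv α β x t 2) → ∀ k : ℕ,
  ∃ C : ℝ, ∀ X : ℕ, 1 ≤ X →
    ∑ ω ∈ (TX α β X).filter (fun ω => Typ α β X ω), (rkw α β ω) ^ k ≤ C * (X : ℝ) ^ 4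

/-! ### K: the typical points have density one -/

open Classical in
/-- **K** the number of the points that are not typical -/
def S_TYP : Prop := ∀ (α β : Fin 3 → ℤ), (∀ j, α j ≠ 0) → ∃ (C : ℝ) (X0 : ℕ), 16 ≤ X0 ∧
  ∀ X : ℕ, X0 ≤ X → (((TX α β X).filter (fun ω => ¬ Typ α β X ω)).card : ℝ) ≤
    C * (X : ℝ) ^ 4 / (LL X) ^ (1 / 2 : ℝ)

/-! ### L: the boxes -/

/-- `2 ^ rank` of the curve with the roots `0`, `d.1`, `d.1 + d.2` -/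
noncomputable def rk2 (d : ℕ × ℕ) : ℝ :=
  (2 : ℝ) ^ Module.finrank ℤ (EAB (d.1 : ℤ) ((d.1 : ℤ) + d.2)).toAffine.Point

/-- **L** the boxes (from J, K) -/
def S_BOX : Prop := ∃ Ty : ℕ → Finset (ℕ × ℕ), (∀ n, Ty n ⊆ Icc 1 n ×ˢ Icc 1 n) ∧
  Tendsto (fun n : ℕ => (((Icc 1 n ×ˢ Icc 1 n) \ Ty n).card : ℝ) / (n : ℝ) ^ 2) atTop (nhds 0) ∧
  ∀ k : ℕ, ∃ C : ℝ, 0 ≤ C ∧ ∀ n : ℕ, 1 ≤ n → ∑ d ∈ Ty n, (rk2 d) ^ k ≤ C * (n : ℝ) ^ 2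

/-! ### M: the curves of given height -/

/-- **M** the curves (from L) -/
def S_FAM : Prop := ∃ Ty : ℕ → Finset (ℤ × ℤ), (∀ H, Ty H ⊆ Cv 2 H) ∧
  Tendsto (fun H : ℕ => ((Cv 2 H \ Ty H).card : ℝ) / (Cv 2 H).card) atTop (nhds 0) ∧
  ∀ k : ℕ, ∃ C : ℝ, 0 ≤ C ∧ ∀ H : ℕ, ∑ c ∈ Ty H,
    ((2 : ℝ) ^ Module.finrank ℤ (Sh c.1 c.2).toAffine.Point) ^ k ≤ C * (Cv 2 H).card

/-! ### N: the final form -/

open Classical in
/-- **N** the set of density one (from M) -/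
def S_FIN : Prop := ∃ A : Set (ℤ × ℤ),
  Tendsto (fun H : ℕ => (((Cv 2 H).filter (fun c => c ∉ A)).card : ℝ) / (Cv 2 H).card)
    atTop (nhds 0) ∧
  ∀ k : ℕ, ∃ C : ℝ, ∀ H : ℕ, ∑ c ∈ (Cv 2 H).filter (fun c => c ∈ A),
    (k : ℝ) ^ Module.finrank ℤ (Sh c.1 c.2).toAffine.Point ≤ C * (Cv 2 H).card

end Pool.Agent.L0h5.TT
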